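import Mathlib
import Pool.Agent.N899.BB.Asm4
import Pool.Agent.N899.BB.Ld2

/-!
# The Stefan–Boltzmann law of four-dimensional lattice Yang–Mills theory at weak coupling

Wilson's lattice gauge theory with a compact gauge group `G` of dimension `n` on `(ℤ/l)³ × ℤ/s` is
the gluon gas in the volume `l³` at the temperature `T = 1 / s` (in lattice units). For large inverse
coupling `β`, for all volumes `l ≥ β` (so also in the infinite volume limit) and all temperatures
`T ≥ β ^ (-1 / K)`, its pressure is that of a free gas of `2 n` massless bosons on the lattice, which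
is `(n π² / 45) T⁴ (1 + o(1))` for `T → 0`; the number of the eigenvalues of the transfer matrix
with an energy density of at most `e` above the vacuum is the one of black body radiation.
-/

set_option autoImplicit false

open MeasureTheory Matrix Filter Topology
open scoped Matrix.Norms.Frobenius

namespace Pool.Agent.Results.MP_7f377f_mp.StefanBoltzmann

noncomputable section

/-- The unitary group `U(N)`. -/
abbrev UU (N : ℕ) := Matrix.unitaryGroup (Fin N) ℂ

/-- The matrix of an element of a subgroup of `U(N)`. -/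
def mt {N : ℕ} {G : Subgroup (UU N)} (g : G) : Matrix (Fin N) (Fin N) ℂ :=
  ((g : UU N) : Matrix (Fin N) (Fin N) ℂ)

/-- An orthonormal basis `X` of the Lie algebra of `G`, that is of the real space of all matrices `Y`
with `exp (t Y) ∈ G` for all real `t`, with the scalar product `Re tr (Y* Z)`; `ex a t` is the
element `exp (t X_a)` of `G`. So `n` is the dimension of `G`. -/
structure LieBasis {N : ℕ} (G : Subgroup (UU N)) (n : ℕ) where
  X : Fin n → Matrix (Fin N) (Fin N) ℂ
  ex : Fin n → ℝ → G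
  ex_eq : ∀ a t, mt (ex a t) = NormedSpace.exp (t • X a)
  orth : ∀ a b, (trace ((X a)ᴴ * X b)).re = if a = b then 1 else 0
  full : ∀ Y : Matrix (Fin N) (Fin N) ℂ, (∀ t : ℝ, ∃ g : G, mt g = NormedSpace.exp (t • Y)) →
    Y ∈ Submodule.span ℝ (Set.range X)

/-- The sites of the lattice `(ℤ/l)³ × ℤ/s`: a point of space and a (euclidean) time. -/
abbrev Site (l s : ℕ) := (Fin 3 → ZMod l) × ZMod s

/-- The unit vectors of the lattice `(ℤ/l)³ × ℤ/s`; the last one is the unit vector of the time. -/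
def unit (l s : ℕ) : Fin 4 → Site l s := Fin.lastCases (0, 1) fun i => (Pi.single i 1, 0)

/-- The configurations of one time slice: the link variables of the periodic lattice `(ℤ/l)³`. -/
abbrev Slice (l : ℕ) (G : Type*) := (Fin 3 → ZMod l) × Fin 3 → G

variable {N n l s : ℕ} {G : Subgroup (UU N)}

/-- The product of the link variables around the plaquette at `x` in the directions `i`, `j`. The
variable of the link from `x` to `x + unit i` is `U (x, i)`. -/
def plaquette (U : Site l s × Fin 4 → G) (x : Site l s) (i j : Fin 4) : G :=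
  U (x, i) * U (x + unit l s i, j) * (U (x + unit l s j, i))⁻¹ * (U (x, j))⁻¹

/-- The Wilson action `∑_p Re tr (1 - U_p)`, the sum over the plaquettes of `(ℤ/l)³ × ℤ/s`. -/
def wilson [NeZero l] [NeZero s] (U : Site l s × Fin 4 → G) : ℝ :=
  ∑ x : Site l s, ∑ i, ∑ j, if i < j then (trace (1 - mt (plaquette U x i j))).re else 0

/-- The partition function of the lattice Yang–Mills theory on `(ℤ/l)³ × ℤ/s`, that is at the
temperature `1 / s` in the volume `(ℤ/l)³`; `μ` is the Haar measure. -/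
def partition (l s : ℕ) [NeZero l] [NeZero s] [MeasurableSpace G] (μ : Measure G) (β : ℝ) : ℝ :=
  ∫ U : Site l s × Fin 4 → G, Real.exp (-(β * wilson U)) ∂(Measure.pi fun _ => μ)

/-- The pressure: the logarithm of the partition function per site of the lattice `(ℤ/l)³ × ℤ/s`. -/
def pressure (l s : ℕ) [NeZero l] [NeZero s] [MeasurableSpace G] (μ : Measure G) (β : ℝ) : ℝ :=
  Real.log (partition l s μ β) / (s * l ^ 3)

/-- `P` is the pressure at the temperature zero (minus the energy density of the vacuum): the limit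
of the pressure at the temperature `1 / t` for even `t → ∞`. -/
def IsVacuumPressure (l : ℕ) [NeZero l] [MeasurableSpace G] (μ : Measure G) (β P : ℝ) : Prop :=
  ∀ ε : ℝ, 0 < ε → ∃ t₀ : ℕ, ∀ (t : ℕ) [NeZero t], Even t → t₀ ≤ t → |pressure l t μ β - P| ≤ ε

/-- The frequency `ω ≥ 0` with `2 cosh ω = 2 + x`. -/
def freq (x : ℝ) : ℝ := Real.log (1 + x / 2 + Real.sqrt (x + x ^ 2 / 4))

/-- The pressure of a free gas of `m` massless bosons on the lattice `ℤ³` at the temperature
`1 / s`, per site of `ℤ³ × ℤ/s`: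
`-(m / s) ∫ log (1 - exp (-s ω(x))) dx` over the cube `[0, 1]³`, `ω(x)` being the frequency of the
eigenvalue `∑ (2 - 2 cos (π x_i))` of the Laplacian. -/
def freeGas (m : ℝ) (s : ℕ) : ℝ :=
  m * (-(1 / (s : ℝ)) * ∫ x in (Set.Icc (0 : Fin 3 → ℝ) 1),
    Real.log (1 - Real.exp (-(s * freq (∑ i, (2 - 2 * Real.cos (Real.pi * x i)))))))

/-- The magnetic energy: the sum of `Re tr (1 - U_p)` over the plaquettes of the time slice. -/
def magnetic [NeZero l] (u : Slice l G) : ℝ :=
  ∑ x, ∑ i, ∑ j, if i < j then (trace (1 - mt (u (x, i) * u (x + Pi.single i 1, j) *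
    (u (x + Pi.single j 1, i))⁻¹ * (u (x, j))⁻¹))).re else 0

/-- The electric energy: the sum of `Re tr (1 - U_p)` over the plaquettes between the time slices
`u` and `v`; `W x` is the variable of the link from `x` at the time of `u` to `x` at the time
of `v`. -/
def electric [NeZero l] (u : Slice l G) (W : (Fin 3 → ZMod l) → G) (v : Slice l G) : ℝ :=
  ∑ x, ∑ i, (trace (1 - mt (u (x, i) * W (x + Pi.single i 1) * (v (x, i))⁻¹ * (W x)⁻¹))).re

/-- The kernel of the transfer matrix of Wilson's lattice Yang–Mills theory on `(ℤ/l)³`. -/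
def transfer [NeZero l] [MeasurableSpace G] (μ : Measure G) (β : ℝ) (u v : Slice l G) : ℝ :=
  ∫ W : (Fin 3 → ZMod l) → G, Real.exp (-(β * (1 / 2 * magnetic u + 1 / 2 * magnetic v +
    electric u W v))) ∂(Measure.pi fun _ => μ)

/-- The transfer matrix. -/
def evolve [NeZero l] [MeasurableSpace G] (μ : Measure G) (β : ℝ) (f : Slice l G → ℝ)
    (u : Slice l G) : ℝ :=
  ∫ v, transfer μ β u v * f v ∂(Measure.pi fun _ => μ)

/-- The square of the norm of a wave function. -/
def normSq [NeZero l] [MeasurableSpace G] (μ : Measure G) (f : Slice l G → ℝ) : ℝ :=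
  ∫ u, f u ^ 2 ∂(Measure.pi fun _ => μ)

/-- `f` is a continuous wave function of energy at most `E` above the ground state:
`‖T f‖ / ‖f‖ ≥ exp (-E) ‖T g‖ / ‖g‖` for all continuous `g`, `T` being the transfer matrix. -/
def LowEnergy [NeZero l] [MeasurableSpace G] (μ : Measure G) (β E : ℝ) (f : Slice l G → ℝ) : Prop :=
  Continuous f ∧ ∀ g : Slice l G → ℝ, Continuous g →
    Real.exp (-2 * E) * (normSq μ (evolve μ β g) * normSq μ f) ≤
      normSq μ (evolve μ β f) * normSq μ g

/-- There are `m` linearly independent wave functions all of whose linear combinations have energy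
at most `E` above the ground state. The largest such `m` is the number of the eigenvalues of the
transfer matrix `T`, with their multiplicities, of modulus at least `exp (-E) ‖T‖`. -/
def HasStates (l : ℕ) [NeZero l] [MeasurableSpace G] (μ : Measure G) (β E : ℝ) (m : ℕ) : Prop :=
  ∃ f : Fin m → Slice l G → ℝ, (∀ c : Fin m → ℝ, (∀ u, ∑ i, c i * f i u = 0) → c = 0) ∧
    ∀ c : Fin m → ℝ, LowEnergy μ β E fun u => ∑ i, c i * f i u

/-- The number of the states in the volume `l ^ 3` with energy at most `E` is between `exp a` and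
`exp b`. -/
def NumberOfStates (l : ℕ) [NeZero l] [MeasurableSpace G] (μ : Measure G) (β E a b : ℝ) : Prop :=
  (∃ m : ℕ, HasStates l μ β E m ∧ Real.exp a ≤ m) ∧ ∀ m : ℕ, HasStates l μ β E m → m ≤ Real.exp b

/-- The black body law with the constants `C` and `K`: for `β ≥ C`, all even `l ≥ β` and all even
`s` with `s ^ K ≤ β`, the pressure at the temperature `1 / s` minus the pressure at the temperature
zero is that of a free gas of `2 n` massless bosons, up to `C β ^ (-1 / K)`. -/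
def FreeGasLaw [MeasurableSpace G] (μ : Measure G) (n : ℕ) (C : ℝ) (K : ℕ) : Prop :=
  ∀ β : ℝ, C ≤ β → ∀ (l : ℕ) [NeZero l], Even l → β ≤ l →
    ∃ P : ℝ, IsVacuumPressure l μ β P ∧ ∀ (s : ℕ) [NeZero s], Even s → (s : ℝ) ^ K ≤ β →
      |pressure l s μ β - P - freeGas (2 * n) s| ≤ C * β ^ (-(1 / K : ℝ))

/-- The law of Stefan and Boltzmann: for `β ≥ b`, all even `l ≥ β` and all even `s ≥ s₀` with
`s ^ b ≤ β`, the pressure at the temperature `T = 1 / s` minus the pressure at the temperature zero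
is `(n π² / 45 ± ε) T⁴`. -/
def FourthPowerLaw [MeasurableSpace G] (μ : Measure G) (n : ℕ) (ε : ℝ) (b s₀ : ℕ) : Prop :=
  ∀ β : ℝ, b ≤ β → ∀ (l : ℕ) [NeZero l], Even l → β ≤ l →
    ∃ P : ℝ, IsVacuumPressure l μ β P ∧ ∀ (s : ℕ) [NeZero s], Even s → s₀ ≤ s →
      (s : ℝ) ^ b ≤ β → |pressure l s μ β - P - n * Real.pi ^ 2 / 45 * (1 / s) ^ 4| ≤
        ε * (1 / s) ^ 4

/-- The law for the number of the states: for `β ≥ b`, all even `l ≥ β` and all energy densities
`e` between `β ^ (-1 / K)` and `e₁`, the number of the states with an energy of at most `e l³` above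
the vacuum is `exp (l³ e ^ (3 / 4) (4 / 3 (n π² / 15) ^ (1 / 4) ± ε))`. -/
def CountingLaw [MeasurableSpace G] (μ : Measure G) (n K : ℕ) (ε b e₁ : ℝ) : Prop :=
  ∀ β : ℝ, b ≤ β → ∀ (l : ℕ) [NeZero l], Even l → β ≤ l →
    ∀ e : ℝ, β ^ (-(1 / K : ℝ)) ≤ e → e ≤ e₁ → NumberOfStates l μ β (e * l ^ 3)
      ((4 / 3 * (n * Real.pi ^ 2 / 15) ^ (1 / 4 : ℝ) - ε) * (l ^ 3 * e ^ (3 / 4 : ℝ)))
      ((4 / 3 * (n * Real.pi ^ 2 / 15) ^ (1 / 4 : ℝ) + ε) * (l ^ 3 * e ^ (3 / 4 : ℝ)))

lemma unit_eq (l s : ℕ) : unit l s = N899.Thermo.unit 3 l s := rfl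

lemma partition_eq (l s : ℕ) [NeZero l] [NeZero s] [MeasurableSpace G] (μ : Measure G) (β : ℝ) :
    partition l s μ β = N899.Thermo.partition 3 l s μ β := rfl

lemma lowEnergy_eq [NeZero l] [MeasurableSpace G] (μ : Measure G) (β E : ℝ)
    (V : Submodule ℝ (Slice l G → ℝ)) :
    N899.Thermo.LowEnergy μ β E V ↔ ∀ f ∈ V, LowEnergy μ β E f := Iff.rfl

lemma comb_eq {m : ℕ} (f : Fin m → Slice l G → ℝ) (c : Fin m → ℝ) :
    (fun u => ∑ i, c i * f i u) = ∑ i, c i • f i := by
  funext u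
  rw [Finset.sum_apply]
  rfl

lemma hasStates_of [NeZero l] [MeasurableSpace G] {μ : Measure G} {β E : ℝ}
    {V : Submodule ℝ (Slice l G → ℝ)} (h : N899.Thermo.LowEnergy μ β E V)
    (hV : Module.Finite ℝ V) : HasStates l μ β E (Module.finrank ℝ V) := by
  have b := Module.finBasis ℝ V
  refine ⟨fun i => (b i : Slice l G → ℝ), fun c hc => ?_, fun c => ?_⟩
  · have h1 : ∑ i, c i • b i = 0 := by
      apply Subtype.ext
      rw [Submodule.coe_sum, ZeroMemClass.coe_zero]
      have h2 := comb_eq (fun i => (b i : Slice l G → ℝ)) c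
      funext u
      have h3 := congrFun h2 u
      exact h3.symm.trans (hc u)
    funext i
    exact Fintype.linearIndependent_iff.1 b.linearIndependent c h1 i
  · rw [comb_eq]
    refine (lowEnergy_eq μ β E V).1 h _ ?_
    exact Submodule.sum_mem _ fun i _ => Submodule.smul_mem _ _ (b i).2

lemma hasStates_le [NeZero l] [MeasurableSpace G] {μ : Measure G} {β E : ℝ} {x : ℝ}
    (h : ∀ V : Submodule ℝ (Slice l G → ℝ), N899.Thermo.LowEnergy μ β E V →
      Module.Finite ℝ V ∧ (Module.finrank ℝ V : ℝ) ≤ x) {m : ℕ} (hm : HasStates l μ β E m) :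
    (m : ℝ) ≤ x := by
  obtain ⟨f, h1, h2⟩ := hm
  have hli : LinearIndependent ℝ f := by
    rw [Fintype.linearIndependent_iff]
    intro c hc i
    refine congrFun (h1 c fun u => ?_) i
    exact (congrFun (comb_eq f c) u).trans (congrFun hc u)
  have h4 := h (Submodule.span ℝ (Set.range f)) ((lowEnergy_eq μ β E _).2 fun g hg => by
    obtain ⟨c, rfl⟩ := (Submodule.mem_span_range_iff_exists_fun ℝ).1 hg
    rw [← comb_eq]
    exact h2 c)
  have h5 := finrank_span_eq_card hli
  rw [Fintype.card_fin] at h5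
  rw [← h5]
  exact h4.2

lemma freeGas_eq (m : ℝ) (s : ℕ) : freeGas m s = m * N899.BB.plat s := rfl

/-- **The Stefan–Boltzmann law of four-dimensional lattice Yang–Mills theory at weak coupling.** Let
`G` be a compact group of unitary matrices of dimension `n ≥ 1`. The pressure of the gluon gas at
the temperature `T = 1 / s` is the one of a free gas of `2 n` massless bosons, up to a power of
`1 / β`, for all temperatures above a power of `1 / β` and all volumes `l ≥ β`; so it is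
`(n π² / 45) T⁴ (1 + o(1))`, and the number of the states of energy at most `e l³` above the vacuum
is the one of black body radiation. -/
theorem result {N n : ℕ} (G : Subgroup (UU N)) (hG : IsClosed (G : Set (UU N)))
    [MeasurableSpace G] [BorelSpace G] (μ : Measure G) [IsProbabilityMeasure μ]
    [μ.IsHaarMeasure] (B : LieBasis G n) (hn : 1 ≤ n) :
    (∃ (C : ℝ) (K : ℕ), 1 ≤ C ∧ 1 ≤ K ∧ FreeGasLaw μ n C K) ∧
    Tendsto (fun s : ℕ => (s : ℝ) ^ 4 * freeGas (2 * n) s) atTop (𝓝 (n * Real.pi ^ 2 / 45)) ∧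
    (∃ b : ℕ, ∀ ε : ℝ, 0 < ε → ∃ s₀ : ℕ, FourthPowerLaw μ n ε b s₀) ∧
    (∃ K : ℕ, 1 ≤ K ∧ ∀ ε : ℝ, 0 < ε → ∃ b e₁ : ℝ, 0 < e₁ ∧ CountingLaw μ n K ε b e₁) := by
  let B' : Y14.Wilson.LieBasis G n := ⟨B.X, B.ex, B.ex_eq, B.orth, B.full⟩
  obtain ⟨C, K, hC, hK, h⟩ := N899.BB.sb_law hG μ B'
  have hlim : Tendsto (fun s : ℕ => (s : ℝ) ^ 4 * freeGas (2 * n) s) atTop
      (𝓝 (n * Real.pi ^ 2 / 45)) := by
    have h1 := (N899.BB.Plat.t_PLAT.2).const_mul (2 * n : ℝ)
    have h2 : (2 * n : ℝ) * (Real.pi ^ 2 / 90) = n * Real.pi ^ 2 / 45 := by ring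
    rw [h2] at h1
    refine h1.congr fun s => ?_
    rw [freeGas_eq]
    ring
  have hlaw : ∀ β : ℝ, C ≤ β → ∀ (l : ℕ) [NeZero l], Even l → β ≤ l →
      ∃ P : ℝ, IsVacuumPressure l μ β P ∧ ∀ (s : ℕ) [NeZero s], Even s → (s : ℝ) ^ K ≤ β →
        |pressure l s μ β - P - freeGas (2 * n) s| ≤ C * β ^ (-(1 / K : ℝ)) := by
    intro β hβ l _ hl hβl
    obtain ⟨P, h1, h2⟩ := h β hβ l hl hβl
    refine ⟨P, fun ε hε => ?_, fun s _ hs hsβ => ?_⟩
    · obtain ⟨t₀, ht₀⟩ := h1 ε hε
      exact ⟨t₀, fun t _ ht htt => ht₀ t ht htt⟩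
    · have h3 := h2 s hs hsβ
      rw [freeGas_eq]
      exact h3
  obtain ⟨b₁, hb₁⟩ := exists_nat_ge C
  refine ⟨⟨C, K, by linarith, hK, hlaw⟩, hlim, ⟨max b₁ (5 * K), fun ε hε => ?_⟩, ?_⟩
  · obtain ⟨s₁, hs₁⟩ := Metric.tendsto_atTop.1 hlim (ε / 2) (by positivity)
    obtain ⟨s₂, hs₂⟩ := exists_nat_ge (2 * C / ε)
    refine ⟨max s₁ (max s₂ 1), fun β hβ l _ hl hβl => ?_⟩
    have hb1 : ((b₁ : ℕ) : ℝ) ≤ ((max b₁ (5 * K) : ℕ) : ℝ) := by
      exact_mod_cast le_max_left _ _
    have hCβ : C ≤ β := by linarith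
    obtain ⟨P, hP, hP2⟩ := hlaw β hCβ l hl hβl
    refine ⟨P, hP, fun s _ hs hs0 hsβ => ?_⟩
    have hs1 : s₁ ≤ s := (le_max_left _ _).trans hs0
    have hs2 : s₂ ≤ s := ((le_max_left _ _).trans (le_max_right _ _)).trans hs0
    have hs3 : 1 ≤ s := ((le_max_right _ _).trans (le_max_right _ _)).trans hs0
    have hs3' : (1 : ℝ) ≤ s := by exact_mod_cast hs3
    have hspos : (0 : ℝ) < s := by linarith
    have h5K : (s : ℝ) ^ (5 * K) ≤ β :=
      (pow_le_pow_right₀ hs3' (le_max_right _ _)).trans hsβ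
    have hsK : (s : ℝ) ^ K ≤ β := (pow_le_pow_right₀ hs3' (by omega)).trans h5K
    have h3 := hP2 s hs hsK
    have hβ0 : 0 < β := by linarith
    have hK0 : (0 : ℝ) < K := by exact_mod_cast hK
    -- `β ^ (-1 / K) ≤ s ^ (-5)`
    have h4 : β ^ (-(1 / K : ℝ)) ≤ (1 / s) ^ 5 := by
      have e1 : ((s : ℝ) ^ (5 * K)) ^ (-(1 / K : ℝ)) = (1 / s) ^ 5 := by
        rw [← Real.rpow_natCast (s : ℝ) (5 * K), ← Real.rpow_mul hspos.le]
        have : ((5 * K : ℕ) : ℝ) * (-(1 / K : ℝ)) = -(5 : ℕ) := by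
          push_cast
          field_simp
        rw [this, Real.rpow_neg hspos.le, Real.rpow_natCast, one_div, inv_pow]
      rw [← e1]
      exact Real.rpow_le_rpow_of_nonpos (by positivity) h5K (by
        have : (0 : ℝ) ≤ 1 / K := by positivity
        linarith)
    have h5 : C * β ^ (-(1 / K : ℝ)) ≤ ε / 2 * (1 / s) ^ 4 := by
      have hs2' : 2 * C / ε ≤ s := hs₂.trans (by exact_mod_cast hs2)
      rw [div_le_iff₀ hε] at hs2'
      calc C * β ^ (-(1 / K : ℝ)) ≤ C * (1 / s) ^ 5 :=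
            mul_le_mul_of_nonneg_left h4 (by linarith)
        _ = (2 * C) * (1 / (2 * s)) * (1 / s) ^ 4 := by
            rw [pow_succ]; field_simp
        _ ≤ (s * ε) * (1 / (2 * s)) * (1 / s) ^ 4 := by gcongr
        _ = ε / 2 * (1 / s) ^ 4 := by field_simp
    have h6 := hs₁ s hs1
    rw [Real.dist_eq] at h6
    have h7 : |freeGas (2 * n) s - n * Real.pi ^ 2 / 45 * (1 / s) ^ 4| ≤ ε / 2 * (1 / s) ^ 4 := by
      have e2 : freeGas (2 * n) s - n * Real.pi ^ 2 / 45 * (1 / s) ^ 4 =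
          ((s : ℝ) ^ 4 * freeGas (2 * n) s - n * Real.pi ^ 2 / 45) * (1 / s) ^ 4 := by
        field_simp
      rw [e2, abs_mul, abs_of_pos (show (0 : ℝ) < (1 / s) ^ 4 by positivity)]
      exact mul_le_mul_of_nonneg_right h6.le (by positivity)
    have e3 : pressure l s μ β - P - n * Real.pi ^ 2 / 45 * (1 / s) ^ 4 =
        (pressure l s μ β - P - freeGas (2 * n) s) +
          (freeGas (2 * n) s - n * Real.pi ^ 2 / 45 * (1 / s) ^ 4) := by ring
    rw [e3]
    refine (abs_add_le _ _).trans ?_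
    have h8 := h3.trans h5
    linarith
  · obtain ⟨K', hK', h'⟩ := N899.BB.Asm.count N899.BB.Ld2.t_LD2 hG μ B' hn
    refine ⟨K', hK', fun ε hε => ?_⟩
    obtain ⟨β₁, e₁, he₁, h1⟩ := h' ε hε
    refine ⟨β₁, e₁, he₁, fun β hβ l _ hl hβl e he1 he2 => ?_⟩
    obtain ⟨⟨V, hV1, hV2, hV3⟩, h3⟩ := h1 β hβ l hl hβl e he1 he2
    exact ⟨⟨_, hasStates_of hV1 hV2, hV3⟩, fun m hm => hasStates_le h3 hm⟩

end

end Pool.Agent.Results.MP_7f377f_mp.StefanBoltzmann
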